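import Pool.Agent.Y262.QE.Stm

/-! # The isometric involution -/

set_option autoImplicit false

open Set Filter Topology MeasureTheory
open scoped Real ContDiff ComplexConjugate

namespace Pool.Agent.Y273.QE

open Pool.Agent.Y262.QE

/-- the defining property of the gradient -/
theorem inner_grd {A : ℂ →L[ℝ] ℂ} (e : ℂ ≃L[ℝ] ℂ) (he : (e : ℂ →L[ℝ] ℂ) = A) (P : ℂ →L[ℝ] ℝ)
    (v : ℂ) : inner ℝ (grd A P) v = P (e.symm v) := by
  subst he
  have h1 : v = v.re • (1 : ℂ) + v.im • Complex.I := by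
    apply Complex.ext <;> simp
  have h2 : e.symm v = v.re • e.symm 1 + v.im • e.symm Complex.I := by
    conv_lhs => rw [h1]
    rw [map_add, map_smul, map_smul]
  rw [h2, map_add, map_smul, map_smul]
  unfold grd
  rw [ContinuousLinearMap.inverse_equiv]
  simp only [Complex.inner, ContinuousLinearEquiv.coe_coe, smul_eq_mul]
  simp [Complex.mul_re]

/-- isometries preserve the products of the gradients -/
theorem grd_iso {A A' B : ℂ →L[ℝ] ℂ} (hA : A.det ≠ 0) (hA' : A'.det ≠ 0)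
    (h : ∀ v, ‖A' (B v)‖ = ‖A v‖) (P Q : ℂ →L[ℝ] ℝ) :
    inner ℝ (grd A (P.comp B)) (grd A (Q.comp B)) = inner ℝ (grd A' P) (grd A' Q) := by
  obtain ⟨e, he⟩ : ∃ e : ℂ ≃L[ℝ] ℂ, (e : ℂ →L[ℝ] ℂ) = A :=
    ⟨A.toContinuousLinearEquivOfDetNeZero hA, by ext v; rfl⟩
  obtain ⟨e', he'⟩ : ∃ e : ℂ ≃L[ℝ] ℂ, (e : ℂ →L[ℝ] ℂ) = A' :=
    ⟨A'.toContinuousLinearEquivOfDetNeZero hA', by ext v; rfl⟩
  -- the isometry
  let R₀ : ℂ →ₗᵢ[ℝ] ℂ :=
    { toLinearMap := ((A'.comp B).comp (e.symm : ℂ →L[ℝ] ℂ) : ℂ →L[ℝ] ℂ)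
      norm_map' := by
        intro v
        simp only [ContinuousLinearMap.coe_coe, ContinuousLinearMap.comp_apply,
          ContinuousLinearEquiv.coe_coe]
        rw [h, ← he]
        simp }
  let R : ℂ ≃ₗᵢ[ℝ] ℂ := R₀.toLinearIsometryEquiv rfl
  have hR : ∀ v, R v = A' (B (e.symm v)) := fun v => rfl
  have key : ∀ P : ℂ →L[ℝ] ℝ, grd A (P.comp B) = R.symm (grd A' P) := by
    intro P
    apply ext_inner_right ℝ
    intro v
    rw [inner_grd e he, ContinuousLinearMap.comp_apply]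
    have h1 : inner ℝ (R.symm (grd A' P)) v = inner ℝ (grd A' P) (R v) := by
      rw [← R.inner_map_map (R.symm (grd A' P)) v, LinearIsometryEquiv.apply_symm_apply]
    rw [h1, inner_grd e' he', hR, ← he']
    simp
  rw [key, key, LinearIsometryEquiv.inner_map_map]

theorem sig (hG : StGr) : StSig := by
  intro M _ _ _ _ μ D hS L Φ σ hc
  obtain ⟨_, hgr, _⟩ := hG M μ D hS
  -- the composition near a point
  have hev : ∀ i j, ∀ x ∈ D.U i, σ x ∈ D.U j → ∀ᶠ z in 𝓝 (D.φ i x), σ (D.ψ i z) ∈ D.U j := by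
    intro i j x hx hj
    have hz : D.φ i x ∈ D.T i := ⟨x, hx, rfl⟩
    have h1 : ContinuousAt (D.ψ i) (D.φ i x) :=
      (hS.contψ i).continuousAt ((hS.openT i).mem_nhds hz)
    have h2 : ContinuousAt (fun z => σ (D.ψ i z)) (D.φ i x) :=
      hc.cont.continuousAt.comp h1
    apply h2.eventually
    apply (hS.openU j).mem_nhds
    show σ (D.ψ i (D.φ i x)) ∈ D.U j
    rw [hS.left i x hx]
    exact hj
  have heq : ∀ i j, ∀ x ∈ D.U i, σ x ∈ D.U j → ∀ F : M → ℝ,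
      (fun z => F (σ (D.ψ i z))) =ᶠ[𝓝 (D.φ i x)]
        (fun z => F (D.ψ j z)) ∘ (fun z => D.φ j (σ (D.ψ i z))) := by
    intro i j x hx hj F
    filter_upwards [hev i j x hx hj] with z hz
    simp only [Function.comp]
    rw [hS.left j _ hz]
  have hcd : ∀ i j, ∀ x ∈ D.U i, σ x ∈ D.U j → ∀ F : M → ℝ, D.C1 F →
      ContDiffAt ℝ 1 (fun z => F (D.ψ j z)) (D.φ j (σ (D.ψ i (D.φ i x)))) := by
    intro i j x hx hj F hF
    have h1 : D.φ j (σ (D.ψ i (D.φ i x))) ∈ D.T j := by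
      rw [hS.left i x hx]
      exact ⟨σ x, hj, rfl⟩
    exact (hF j).contDiffAt ((hS.openT j).mem_nhds h1)
  have hC : ∀ F, D.C1 F → D.C1 fun x => F (σ x) := by
    intro F hF i z hz
    obtain ⟨x, hx, rfl⟩ := hz
    obtain ⟨j, hj⟩ := hS.cover (σ x)
    have h1 := (hc.iso i j x hx hj).1
    have h2 := (hcd i j x hx hj F hF).comp (D.φ i x) h1
    exact (h2.congr_of_eventuallyEq (heq i j x hx hj F)).contDiffWithinAt
  refine ⟨hC, fun F G hF hG x => ?_⟩
  obtain ⟨i, hi⟩ := hS.cover x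
  obtain ⟨j, hj⟩ := hS.cover (σ x)
  rw [hgr _ _ (hC F hF) (hC G hG) i x hi, hgr F G hF hG j (σ x) hj]
  have hd : ∀ F : M → ℝ, D.C1 F → D.dc i (fun x => F (σ x)) x = (D.dc j F (σ x)).comp
      (fderiv ℝ (fun z => D.φ j (σ (D.ψ i z))) (D.φ i x)) := by
    intro F hF
    unfold Data.dc
    have h1 := (hc.iso i j x hi hj).1
    have h3 := hcd i j x hi hj F hF
    have h4 := fderiv_comp (𝕜 := ℝ) (f := fun z => D.φ j (σ (D.ψ i z)))
      (g := fun z => F (D.ψ j z)) (D.φ i x) (h3.differentiableAt (by norm_num))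
      (h1.differentiableAt (by norm_num))
    rw [(heq i j x hi hj F).fderiv_eq, h4, hS.left i x hi]
  unfold Data.gc
  rw [hd F hF, hd G hG]
  exact grd_iso (hS.det i _ ⟨x, hi, rfl⟩) (hS.det j _ ⟨σ x, hj, rfl⟩)
    (hc.iso i j x hi hj).2 _ _

end Pool.Agent.Y273.QE
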